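import Pool.Agent.Lib_helper28.FROB.Log

/-!
# The sum over the prime ideals near `s = 1`
-/

open NumberField IsDedekindDomain Ideal Filter Topology Asymptotics
open scoped ENNReal

namespace Pool.Agent.Lib_helper28.FROB

variable (K : Type*) [Field K] [NumberField K]

/-- The terms of the Dedekind zeta function. -/
noncomputable def cf (s : ℝ) (n : ℕ) : ℝ :=
  if n = 0 then 0 else (Nat.card {I : Ideal (𝓞 K) // absNorm I = n} : ℝ) * (n : ℝ) ^ (-s)

theorem cf_nonneg (s : ℝ) (n : ℕ) : 0 ≤ cf K s n := by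
  unfold cf
  split_ifs
  · exact le_rfl
  · positivity

theorem Z_eq (s : ℝ) : Z K s = ∑' n : ℕ, ENNReal.ofReal (cf K s n) := by
  let g : {I : Ideal (𝓞 K) // I ≠ ⊥} → ℕ := fun I => absNorm I.1
  unfold Z
  rw [← ENNReal.tsum_fiberwise (fun I : {I : Ideal (𝓞 K) // I ≠ ⊥} => F s I.1) g]
  refine tsum_congr fun n => ?_
  have h1 : ∀ I : ↑(g ⁻¹' {n}), F s I.1.1 = ENNReal.ofReal ((n : ℝ) ^ (-s)) := by
    intro I
    have : absNorm I.1.1 = n := I.2
    unfold F
    rw [this]
  rw [tsum_congr h1]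
  unfold cf
  by_cases hn : n = 0
  · subst hn
    have : IsEmpty ↑(g ⁻¹' {0}) := ⟨fun I => I.1.2 (absNorm_eq_zero_iff.mp I.2)⟩
    simp
  · let e : ↑(g ⁻¹' {n}) ≃ {I : Ideal (𝓞 K) // absNorm I = n} :=
      { toFun := fun I => ⟨I.1.1, I.2⟩
        invFun := fun I => ⟨⟨I.1, by
          rintro h
          apply hn
          rw [← I.2, h, absNorm_bot]⟩, I.2⟩
        left_inv := fun I => rfl
        right_inv := fun I => rfl }
    have hfin : Finite {I : Ideal (𝓞 K) // absNorm I = n} :=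
      (finite_setOfPred_absNorm_eq (S := 𝓞 K) n).to_subtype
    have : Finite ↑(g ⁻¹' {n}) := Finite.of_equiv _ e.symm
    have := Fintype.ofFinite ↑(g ⁻¹' {n})
    rw [if_neg hn, tsum_fintype, Finset.sum_const, Finset.card_univ, nsmul_eq_mul,
      ← Nat.card_eq_fintype_card, Nat.card_congr e, ENNReal.ofReal_mul (Nat.cast_nonneg _),
      ENNReal.ofReal_natCast]

theorem zeta_eq (s : ℝ) : dedekindZeta K (s : ℂ) = (((Z K s).toReal : ℝ) : ℂ) := by
  rw [Z_eq, ENNReal.tsum_toReal_eq (fun n => ENNReal.ofReal_ne_top), Complex.ofReal_tsum]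
  unfold dedekindZeta LSeries
  refine tsum_congr fun n => ?_
  rw [ENNReal.toReal_ofReal (cf_nonneg K s n)]
  unfold LSeries.term cf
  split_ifs with hn
  · simp
  · rw [Complex.ofReal_mul, Complex.ofReal_natCast, div_eq_mul_inv, ← Complex.cpow_neg,
      Complex.ofReal_cpow (Nat.cast_nonneg _)]
    simp

theorem tendsto_Z : Tendsto (fun s : ℝ => (s - 1) * (Z K s).toReal) (𝓝[>] 1)
    (𝓝 (dedekindZeta_residue K)) := by
  have h := tendsto_sub_one_mul_dedekindZeta_nhdsGT K
  have h2 := (Complex.continuous_re.tendsto _).comp h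
  refine (h2.congr fun s => ?_)
  simp only [Function.comp_apply]
  rw [zeta_eq, ← Complex.ofReal_one, ← Complex.ofReal_sub, ← Complex.ofReal_mul,
    Complex.ofReal_re]

/-- the sum over the prime ideals -/
theorem isBigO_sum : (fun s : ℝ => ∑' v : HeightOneSpectrum (𝓞 K), x s v - Real.log (1 / (s - 1)))
    =O[𝓝[>] 1] (fun _ => (1 : ℝ)) := by
  have hρ := dedekindZeta_residue_pos K
  set ρ := dedekindZeta_residue K
  have h1 : ∀ᶠ s : ℝ in 𝓝[>] 1, ρ / 2 < (s - 1) * (Z K s).toReal :=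
    (tendsto_Z K).eventually (lt_mem_nhds (by linarith))
  have h2 : ∀ᶠ s : ℝ in 𝓝[>] 1, (s - 1) * (Z K s).toReal < 2 * ρ :=
    (tendsto_Z K).eventually (gt_mem_nhds (by linarith))
  set c := ∑' v : HeightOneSpectrum (𝓞 K), x 2 v
  refine IsBigO.of_bound (c + |Real.log (ρ / 2)| + |Real.log (2 * ρ)|) ?_
  filter_upwards [h1, h2, self_mem_nhdsWithin] with s hs1 hs2 hs
  have hs0 : 0 < s - 1 := sub_pos.mpr hs
  have hc : 0 ≤ c := tsum_nonneg fun v => (x_pos 2 v).le
  have hZtop : Z K s ≠ ∞ := ne_top_of_le_ne_top ENNReal.ofReal_ne_top (Z_le hs)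
  have hZpos : 0 < (Z K s).toReal := by
    by_contra hneg
    have : (s - 1) * (Z K s).toReal ≤ 0 := mul_nonpos_of_nonneg_of_nonpos hs0.le (not_lt.mp hneg)
    linarith
  set X := ∑' v : HeightOneSpectrum (𝓞 K), x s v
  have hup : (Z K s).toReal ≤ Real.exp (X + c) := by
    have := ENNReal.toReal_mono ENNReal.ofReal_ne_top (Z_le (K := K) hs)
    rwa [ENNReal.toReal_ofReal (Real.exp_pos _).le] at this
  have hlo : Real.exp (X - c) ≤ (Z K s).toReal := by
    have := ENNReal.toReal_mono hZtop (le_Z (K := K) hs)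
    rwa [ENNReal.toReal_ofReal (Real.exp_pos _).le] at this
  have hup' : Real.log (Z K s).toReal ≤ X + c := by
    rw [← Real.log_exp (X + c)]
    exact Real.log_le_log hZpos hup
  have hlo' : X - c ≤ Real.log (Z K s).toReal := by
    rw [← Real.log_exp (X - c)]
    exact Real.log_le_log (Real.exp_pos _) hlo
  have hlog : Real.log ((s - 1) * (Z K s).toReal) =
      Real.log (Z K s).toReal - Real.log (1 / (s - 1)) := by
    rw [Real.log_mul hs0.ne' hZpos.ne', one_div, Real.log_inv]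
    ring
  have ha : Real.log (ρ / 2) ≤ Real.log ((s - 1) * (Z K s).toReal) :=
    Real.log_le_log (by linarith) hs1.le
  have hb : Real.log ((s - 1) * (Z K s).toReal) ≤ Real.log (2 * ρ) :=
    Real.log_le_log (by linarith) hs2.le
  rw [norm_one, mul_one, Real.norm_eq_abs, abs_le]
  have ha' := neg_abs_le (Real.log (ρ / 2))
  have hb' := le_abs_self (Real.log (2 * ρ))
  have ha'' := abs_nonneg (Real.log (ρ / 2))
  have hb'' := abs_nonneg (Real.log (2 * ρ))
  constructor <;> linarith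

end Pool.Agent.Lib_helper28.FROB
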