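import Pool.Agent.Lib_helper28.FROB.Sum

/-!
# Frobenius: induction over the subgroups
-/

open NumberField IsDedekindDomain Ideal MulAction Filter Topology Asymptotics
open scoped Pointwise

namespace Pool.Agent.Lib_helper28.FROB

variable {M : Type*} [Field M] [NumberField M] [IsGalois ℚ M]

set_option linter.unusedSectionVars false

theorem isBigO_tb (H : Subgroup Gal(M/ℚ)) :
    (fun s : ℝ => ∑' v, tb H s v - Real.log (1 / (s - 1))) =O[𝓝[>] 1] (fun _ => (1 : ℝ)) := by
  obtain ⟨C, hC⟩ := sum_tb H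
  have h1 : (fun s : ℝ => ∑' v : HeightOneSpectrum (𝓞 (Fix H)), x s v - ∑' v, tb H s v)
      =O[𝓝[>] 1] (fun _ => (1 : ℝ)) := by
    refine IsBigO.of_bound C ?_
    filter_upwards [self_mem_nhdsWithin] with s hs
    rw [norm_one, mul_one, Real.norm_eq_abs]
    exact hC s hs
  refine ((isBigO_sum (K := Fix H)).sub h1).congr_left fun s => ?_
  ring

theorem isBigO_ta (H : Subgroup Gal(M/ℚ)) :
    (fun s : ℝ => ∑' w, ta H s w - Nat.card H * Real.log (1 / (s - 1)))
      =O[𝓝[>] 1] (fun _ => (1 : ℝ)) := by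
  refine ((isBigO_tb H).const_mul_left (Nat.card H : ℝ)).congr' ?_ EventuallyEq.rfl
  filter_upwards [self_mem_nhdsWithin] with s hs
  rw [sum_ta H hs, mul_sub]

/-- the number of generators of `H` -/
noncomputable def gen {G : Type*} [Group G] (H : Subgroup G) : ℕ :=
  Nat.card {h : G // Subgroup.zpowers h = H}

open Classical in
theorem sum_gen {G : Type*} [Group G] [Fintype (Subgroup G)] [Finite G] (H : Subgroup G) :
    ∑ H' : Subgroup G with H' ≤ H, gen H' = Nat.card H := by
  have := Fintype.ofFinite G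
  have h1 : Nat.card H = (Finset.univ.filter fun h : G => h ∈ H).card := by
    rw [← Fintype.card_subtype, Nat.card_eq_fintype_card]
  rw [h1, Finset.card_eq_sum_card_fiberwise (f := fun h : G => Subgroup.zpowers h)
    (t := Finset.univ.filter fun H' : Subgroup G => H' ≤ H)]
  · refine Finset.sum_congr rfl fun H' hH' => ?_
    have hle : H' ≤ H := (Finset.mem_filter.mp hH').2
    unfold gen
    rw [Nat.card_eq_fintype_card, Fintype.card_subtype]
    congr 1
    ext h
    simp only [Finset.mem_filter, Finset.mem_univ, true_and]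
    constructor
    · intro e
      exact ⟨hle (e ▸ Subgroup.mem_zpowers h), e⟩
    · exact fun e => e.2
  · intro h hh
    simp only [Finset.coe_filter, Finset.mem_univ, true_and, Set.mem_ofPred_eq] at hh ⊢
    exact Subgroup.zpowers_le.mpr hh

open Classical in
theorem sum_tt [Fintype (Subgroup Gal(M/ℚ))] (H : Subgroup Gal(M/ℚ)) (s : ℝ)
    (w : HeightOneSpectrum (𝓞 M)) :
    ∑ H' : Subgroup Gal(M/ℚ) with H' ≤ H, tt H' s w = ta H s w := by
  by_cases h : U M (pr w) ∧ Dec w ≤ H
  · rw [Finset.sum_eq_single (Dec w)]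
    · rw [tt, if_pos ⟨h.1, rfl⟩, ta, if_pos h]
    · intro H' _ hne
      rw [tt, if_neg]
      exact fun h' => hne h'.2.symm
    · intro hn
      refine absurd ?_ hn
      rw [Finset.mem_filter]
      exact ⟨Finset.mem_univ _, h.2⟩
  · rw [ta, if_neg h]
    refine Finset.sum_eq_zero fun H' hH' => ?_
    rw [tt, if_neg]
    rintro ⟨h1, h2⟩
    exact h ⟨h1, h2 ▸ (Finset.mem_filter.mp hH').2⟩

open Classical in
theorem sum_sum_tt [Fintype (Subgroup Gal(M/ℚ))] (H : Subgroup Gal(M/ℚ)) {s : ℝ} (hs : 1 < s) :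
    ∑ H' : Subgroup Gal(M/ℚ) with H' ≤ H, ∑' w, tt H' s w = ∑' w, ta H s w := by
  rw [← Summable.tsum_finsetSum fun H' _ => summable_tt H' hs]
  exact tsum_congr fun w => sum_tt H s w

theorem isBigO_tt (H : Subgroup Gal(M/ℚ)) :
    (fun s : ℝ => ∑' w, tt H s w - gen H * Real.log (1 / (s - 1)))
      =O[𝓝[>] 1] (fun _ => (1 : ℝ)) := by
  classical
  have := Fintype.ofFinite (Subgroup Gal(M/ℚ))
  induction H using WellFoundedLT.induction with
  | ind H ih =>
  have hsplit : (Finset.univ.filter fun H' : Subgroup Gal(M/ℚ) => H' ≤ H) =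
      insert H (Finset.univ.filter fun H' : Subgroup Gal(M/ℚ) => H' < H) := by
    ext H'
    simp only [Finset.mem_filter, Finset.mem_univ, true_and, Finset.mem_insert]
    exact le_iff_eq_or_lt
  have hnot : H ∉ (Finset.univ.filter fun H' : Subgroup Gal(M/ℚ) => H' < H) := by simp
  have h1 : (fun s : ℝ => ∑ H' : Subgroup Gal(M/ℚ) with H' < H,
      (∑' w, tt H' s w - gen H' * Real.log (1 / (s - 1)))) =O[𝓝[>] 1] (fun _ => (1 : ℝ)) := by
    refine IsBigO.fun_sum fun H' hH' => ih H' (Finset.mem_filter.mp hH').2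
  refine ((isBigO_ta H).sub h1).congr' ?_ EventuallyEq.rfl
  filter_upwards [self_mem_nhdsWithin] with s hs
  have h2 := sum_sum_tt H hs
  have h3 := sum_gen H
  rw [hsplit, Finset.sum_insert hnot] at h2 h3
  have h4 : (Nat.card H : ℝ) = gen H +
      ∑ H' : Subgroup Gal(M/ℚ) with H' < H, (gen H' : ℝ) := by
    rw [← h3]; push_cast; rfl
  rw [← h2, h4, Finset.sum_sub_distrib, ← Finset.sum_mul]
  ring

end Pool.Agent.Lib_helper28.FROB
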