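import Mathlib

/-!
# Prime ideals of a number field and the rational primes below them
-/

open NumberField IsDedekindDomain Ideal
open scoped ENNReal

namespace Pool.Agent.Lib_helper28.FROB

section

variable {K : Type*} [Field K]

/-- the rational prime below -/
noncomputable def pr (v : HeightOneSpectrum (𝓞 K)) : ℕ := absNorm (v.asIdeal.under ℤ)

/-- the residue degree over the rational prime below -/
noncomputable def dg (v : HeightOneSpectrum (𝓞 K)) : ℕ := v.asIdeal.inertiaDeg ℤ

theorem pr_prime (v : HeightOneSpectrum (𝓞 K)) : (pr v).Prime := by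
  have : NeZero v.asIdeal := ⟨v.ne_bot⟩
  exact Nat.absNorm_under_prime v.asIdeal

theorem under_eq (v : HeightOneSpectrum (𝓞 K)) : v.asIdeal.under ℤ = span {(pr v : ℤ)} :=
  (Int.ideal_span_absNorm_eq_self _).symm

/-- primes above `p` -/
noncomputable def toOver (p : ℕ) (v : {v : HeightOneSpectrum (𝓞 K) // pr v = p}) :
    (span {(p : ℤ)}).primesOver (𝓞 K) :=
  ⟨v.1.asIdeal, v.1.isPrime, ⟨by rw [under_eq, v.2]⟩⟩

theorem toOver_inj (p : ℕ) : Function.Injective (toOver (K := K) p) := by
  intro v w h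
  apply Subtype.ext
  apply HeightOneSpectrum.ext
  exact congrArg Subtype.val h

end

variable {K : Type*} [Field K] [NumberField K]

theorem norm_eq (v : HeightOneSpectrum (𝓞 K)) : absNorm v.asIdeal = pr v ^ dg v := by
  have : v.asIdeal.LiesOver (span {(pr v : ℤ)}) := Int.liesOver_span_absNorm _
  have h := Ideal.natAbs_pow_inertiaDeg (pr v : ℤ) v.asIdeal
  rw [← h, Int.natAbs_natCast]
  rfl

theorem dg_pos (v : HeightOneSpectrum (𝓞 K)) : 0 < dg v := Ideal.inertiaDeg_pos _ _

theorem finite_over (p : ℕ) [Fact p.Prime] : Finite ((span {(p : ℤ)}).primesOver (𝓞 K)) :=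
  (Algebra.QuasiFinite.finite_primesOver (span {(p : ℤ)})).to_subtype

theorem fiber_finite (p : ℕ) : Finite {v : HeightOneSpectrum (𝓞 K) // pr v = p} := by
  by_cases hp : p.Prime
  · have := Fact.mk hp
    have := finite_over (K := K) p
    exact Finite.of_injective _ (toOver_inj p)
  · have : IsEmpty {v : HeightOneSpectrum (𝓞 K) // pr v = p} := ⟨fun v => hp (v.2 ▸ pr_prime v.1)⟩
    infer_instance

theorem card_fiber_le (p : ℕ) :
    Nat.card {v : HeightOneSpectrum (𝓞 K) // pr v = p} ≤ Module.finrank ℚ K := by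
  by_cases hp : p.Prime
  · have := Fact.mk hp
    have := finite_over (K := K) p
    refine (Nat.card_le_card_of_injective _ (toOver_inj p)).trans ?_
    have := Fintype.ofFinite ((span {(p : ℤ)}).primesOver (𝓞 K))
    rw [← RingOfIntegers.rank K, ← Ideal.sum_ramification_inertia_eq_finrank
      (span {(p : ℤ)}) (𝓞 K), Nat.card_eq_fintype_card, ← Finset.card_univ,
      Finset.card_eq_sum_ones]
    refine Finset.sum_le_sum fun q _ => ?_
    exact Nat.one_le_iff_ne_zero.mpr (Nat.mul_ne_zero (Ideal.ramificationIdx_pos _ _).ne'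
      (Ideal.inertiaDeg_pos _ _).ne')
  · have : IsEmpty {v : HeightOneSpectrum (𝓞 K) // pr v = p} := ⟨fun v => hp (v.2 ▸ pr_prime v.1)⟩
    simp

/-- Sums over the prime ideals of functions of the rational prime below. -/
theorem tsum_pr_le (f : ℕ → ℝ≥0∞) :
    ∑' v : HeightOneSpectrum (𝓞 K), f (pr v) ≤ Module.finrank ℚ K * ∑' p : Nat.Primes, f p := by
  let g : HeightOneSpectrum (𝓞 K) → Nat.Primes := fun v => ⟨pr v, pr_prime v⟩
  rw [← ENNReal.tsum_fiberwise (fun v : HeightOneSpectrum (𝓞 K) => f (pr v)) g,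
    ← ENNReal.tsum_mul_left]
  refine ENNReal.tsum_le_tsum fun p => ?_
  have h1 : ∀ v : ↑(g ⁻¹' {p}), f (pr v.1) = f p := by
    intro v
    have : g v.1 = p := v.2
    exact congrArg (fun q : Nat.Primes => f (q : ℕ)) this
  have hfin := fiber_finite (K := K) p
  let e : ↑(g ⁻¹' {p}) ≃ {v : HeightOneSpectrum (𝓞 K) // pr v = (p : ℕ)} :=
    Equiv.subtypeEquivRight fun v => Subtype.ext_iff
  have : Finite ↑(g ⁻¹' {p}) := Finite.of_equiv _ e.symm
  have := Fintype.ofFinite ↑(g ⁻¹' {p})
  rw [tsum_congr h1, tsum_fintype, Finset.sum_const, Finset.card_univ, nsmul_eq_mul,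
    ← Nat.card_eq_fintype_card, Nat.card_congr e]
  gcongr
  exact card_fiber_le _

end Pool.Agent.Lib_helper28.FROB
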