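import Pool.Agent.Lib_helper28.FROB.Induct

/-!
# Frobenius: the sum of the orders of the decomposition groups above a rational prime
-/

open NumberField IsDedekindDomain Ideal MulAction
open scoped Pointwise ENNReal

namespace Pool.Agent.Lib_helper28.FROB

variable {M : Type*} [Field M] [NumberField M] [IsGalois ℚ M]

/-- the primes above `p` -/
noncomputable def overEquiv (p : ℕ) :
    {w : HeightOneSpectrum (𝓞 M) // pr w = p} ≃
      {P : (span {(p : ℤ)}).primesOver (𝓞 M) // p.Prime} where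
  toFun w := ⟨toOver p w, w.2 ▸ pr_prime w.1⟩
  invFun P := ⟨⟨P.1.1, P.1.2.1, by
    intro h0
    have h1 := P.1.2.2.over
    rw [h0, Ideal.under_bot, Ideal.span_singleton_eq_bot] at h1
    exact P.2.ne_zero (by exact_mod_cast h1)⟩, by
      have h1 := P.1.2.2.over
      show absNorm (P.1.1.under ℤ) = p
      rw [← h1]
      simp⟩
  left_inv w := rfl
  right_inv P := rfl

theorem sum_dec (p : ℕ) (hp : p.Prime) :
    ∑' w : {w : HeightOneSpectrum (𝓞 M) // pr w = p}, (Nat.card (Dec w.1) : ℝ≥0∞) =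
      Nat.card Gal(M/ℚ) := by
  have hF := Fact.mk hp
  have hpi : Prime (p : ℤ) := Nat.prime_iff_prime_int.mp hp
  have hbot : (span {(p : ℤ)} : Ideal ℤ) ≠ ⊥ := by
    rw [Ne, Ideal.span_singleton_eq_bot]
    exact_mod_cast hp.ne_zero
  have hprime : (span {(p : ℤ)} : Ideal ℤ).IsPrime := (Ideal.span_singleton_prime
    (by exact_mod_cast hp.ne_zero)).mpr hpi
  have hmax : (span {(p : ℤ)} : Ideal ℤ).IsMaximal :=
    Ring.DimensionLEOne.maximalOfPrime hbot hprime
  have hperf := perfect_under (span {(p : ℤ)} : Ideal ℤ) hbot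
  have h1 : ∀ w : {w : HeightOneSpectrum (𝓞 M) // pr w = p}, (Nat.card (Dec w.1) : ℝ≥0∞) =
      (((span {(p : ℤ)} : Ideal ℤ).ramificationIdxIn (𝓞 M) *
        (span {(p : ℤ)} : Ideal ℤ).inertiaDegIn (𝓞 M) : ℕ) : ℝ≥0∞) := by
    intro w
    have : w.1.asIdeal.LiesOver (span {(p : ℤ)}) := (toOver p w).2.2
    exact congrArg Nat.cast
      (Ideal.card_stabilizer_eq (G := Gal(M/ℚ)) (span {(p : ℤ)}) w.1.asIdeal)
  have hfin := fiber_finite (K := M) p
  have := Fintype.ofFinite {w : HeightOneSpectrum (𝓞 M) // pr w = p}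
  have e : Nat.card {w : HeightOneSpectrum (𝓞 M) // pr w = p} =
      ((span {(p : ℤ)}).primesOver (𝓞 M)).ncard := by
    rw [Nat.card_congr (overEquiv p), ← Nat.card_coe_set_eq]
    exact Nat.card_congr ⟨fun P => P.1, fun P => ⟨P, hp⟩, fun P => rfl, fun P => rfl⟩
  rw [tsum_congr h1, tsum_fintype, Finset.sum_const, Finset.card_univ, nsmul_eq_mul,
    ← Nat.card_eq_fintype_card, e, ← Nat.cast_mul,
    ncard_primesOver_mul_ramificationIdxIn_mul_inertiaDegIn (span {(p : ℤ)}) (𝓞 M) Gal(M/ℚ)]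

/-- Sums over the prime ideals of functions of the rational prime below, weighted by the order of
the decomposition group. -/
theorem tsum_dec (f : ℕ → ℝ≥0∞) :
    ∑' w : HeightOneSpectrum (𝓞 M), (Nat.card (Dec w) : ℝ≥0∞) * f (pr w) =
      Nat.card Gal(M/ℚ) * ∑' p : Nat.Primes, f p := by
  let g : HeightOneSpectrum (𝓞 M) → Nat.Primes := fun v => ⟨pr v, pr_prime v⟩
  rw [← ENNReal.tsum_fiberwise
    (fun w : HeightOneSpectrum (𝓞 M) => (Nat.card (Dec w) : ℝ≥0∞) * f (pr w)) g,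
    ← ENNReal.tsum_mul_left]
  refine tsum_congr fun p => ?_
  have h1 : ∀ v : ↑(g ⁻¹' {p}), (Nat.card (Dec v.1) : ℝ≥0∞) * f (pr v.1) =
      (Nat.card (Dec v.1) : ℝ≥0∞) * f p := by
    intro v
    have : g v.1 = p := v.2
    exact congrArg (fun q : Nat.Primes => (Nat.card (Dec v.1) : ℝ≥0∞) * f (q : ℕ)) this
  let e : ↑(g ⁻¹' {p}) ≃ {v : HeightOneSpectrum (𝓞 M) // pr v = (p : ℕ)} :=
    Equiv.subtypeEquivRight fun v => Subtype.ext_iff
  rw [tsum_congr h1, ENNReal.tsum_mul_right]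
  congr 1
  rw [← sum_dec (p : ℕ) p.2]
  exact e.tsum_eq (fun w : {v : HeightOneSpectrum (𝓞 M) // pr v = (p : ℕ)} =>
    (Nat.card (Dec w.1) : ℝ≥0∞))

end Pool.Agent.Lib_helper28.FROB
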