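import Pool.Agent.Lib_helper28.FROB.Count

/-!
# The two inequalities of the Euler product of the Dedekind zeta function
-/

open NumberField IsDedekindDomain Ideal
open scoped ENNReal

namespace Pool.Agent.Lib_helper28.FROB

variable {K : Type*} [Field K] [NumberField K]

/-- `N(I)^(-s)` -/
noncomputable def F (s : ℝ) (I : Ideal (𝓞 K)) : ℝ≥0∞ := ENNReal.ofReal ((absNorm I : ℝ) ^ (-s))

/-- the sum over all nonzero ideals -/
noncomputable def Z (K : Type*) [Field K] [NumberField K] (s : ℝ) : ℝ≥0∞ :=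
  ∑' I : {I : Ideal (𝓞 K) // I ≠ ⊥}, F s I.1

/-- `N(v)^(-s)` -/
noncomputable def x (s : ℝ) (v : HeightOneSpectrum (𝓞 K)) : ℝ := (absNorm v.asIdeal : ℝ) ^ (-s)

theorem F_one (s : ℝ) : F s (1 : Ideal (𝓞 K)) = 1 := by
  simp [F]

theorem F_mul (s : ℝ) (I J : Ideal (𝓞 K)) : F s (I * J) = F s I * F s J := by
  unfold F
  rw [map_mul, Nat.cast_mul, Real.mul_rpow (Nat.cast_nonneg _) (Nat.cast_nonneg _),
    ENNReal.ofReal_mul (Real.rpow_nonneg (Nat.cast_nonneg _) _)]

theorem F_pow (s : ℝ) (I : Ideal (𝓞 K)) (k : ℕ) : F s (I ^ k) = F s I ^ k := by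
  induction k with
  | zero => rw [pow_zero, pow_zero, F_one]
  | succ k ih => rw [pow_succ, pow_succ, F_mul, ih]

theorem F_prod (s : ℝ) (t : Finset (HeightOneSpectrum (𝓞 K))) :
    F s (∏ v ∈ t, v.asIdeal) = ∏ v ∈ t, F s v.asIdeal := by
  classical
  induction t using Finset.induction_on with
  | empty => rw [Finset.prod_empty, Finset.prod_empty, F_one]
  | insert v t hv ih => rw [Finset.prod_insert hv, Finset.prod_insert hv, F_mul, ih]

theorem dvd_asIdeal {v w : HeightOneSpectrum (𝓞 K)} (h : v.asIdeal ∣ w.asIdeal) : v = w := by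
  apply HeightOneSpectrum.ext
  have h1 : w.asIdeal ≤ v.asIdeal := Ideal.dvd_iff_le.mp h
  exact (w.isMaximal.eq_of_le v.isPrime.ne_top h1).symm

theorem dvd_prod {v : HeightOneSpectrum (𝓞 K)} {t : Finset (HeightOneSpectrum (𝓞 K))} :
    v.asIdeal ∣ ∏ w ∈ t, w.asIdeal ↔ v ∈ t := by
  constructor
  · intro h
    obtain ⟨w, hw, h'⟩ := (Prime.dvd_finsetProd_iff v.prime _).mp h
    rwa [dvd_asIdeal h']
  · intro h
    exact Finset.dvd_prod_of_mem _ h

omit [NumberField K] in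
theorem prod_ne_bot (t : Finset (HeightOneSpectrum (𝓞 K))) : ∏ w ∈ t, w.asIdeal ≠ ⊥ := by
  rw [← Ideal.zero_eq_bot, Finset.prod_ne_zero_iff]
  intro w _
  exact w.ne_bot

theorem euler_lower (s : ℝ) (t : Finset (HeightOneSpectrum (𝓞 K))) :
    ∏ v ∈ t, (1 + F s v.asIdeal) ≤ Z K s := by
  classical
  rw [Finset.prod_one_add]
  let φ : Finset (HeightOneSpectrum (𝓞 K)) → {I : Ideal (𝓞 K) // I ≠ ⊥} :=
    fun u => ⟨∏ v ∈ u, v.asIdeal, prod_ne_bot u⟩
  have hφ : Function.Injective φ := by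
    intro u u' h
    have h' : ∏ v ∈ u, v.asIdeal = ∏ v ∈ u', v.asIdeal := congrArg Subtype.val h
    ext v
    rw [← dvd_prod, h', dvd_prod]
  have h1 : ∀ u ∈ t.powerset, ∏ v ∈ u, F s v.asIdeal = F s (φ u).1 := fun u _ => (F_prod s u).symm
  rw [Finset.sum_congr rfl h1, ← Finset.sum_image (f := fun I : {I : Ideal (𝓞 K) // I ≠ ⊥} =>
    F s I.1) (s := t.powerset) (g := φ) (fun a _ b _ h => hφ h)]
  exact ENNReal.sum_le_tsum _

/-- the nonzero ideals all of whose prime divisors are in `t` -/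
abbrev AS (t : Finset (HeightOneSpectrum (𝓞 K))) : Type _ :=
  {I : Ideal (𝓞 K) // I ≠ ⊥ ∧ ∀ v : HeightOneSpectrum (𝓞 K), v.asIdeal ∣ I → v ∈ t}

theorem AS_insert {t : Finset (HeightOneSpectrum (𝓞 K))} {v : HeightOneSpectrum (𝓞 K)}
    [DecidableEq (HeightOneSpectrum (𝓞 K))] (I : AS (insert v t)) :
    ∃ (J : AS t) (k : ℕ), I.1 = J.1 * v.asIdeal ^ k := by
  have hfin : FiniteMultiplicity v.asIdeal I.1 :=
    FiniteMultiplicity.of_not_isUnit v.prime.not_isUnit I.2.1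
  obtain ⟨c, hc, hnd⟩ := hfin.exists_eq_pow_mul_and_not_dvd
  refine ⟨⟨c, ?_, ?_⟩, multiplicity v.asIdeal I.1, ?_⟩
  · rintro rfl
    rw [Ideal.mul_bot] at hc
    exact I.2.1 hc
  · intro w hw
    have h1 : w.asIdeal ∣ I.1 := hc ▸ hw.mul_left _
    rcases Finset.mem_insert.mp (I.2.2 w h1) with h2 | h2
    · subst h2
      exact absurd hw hnd
    · exact h2
  · rw [mul_comm]
    exact hc

theorem euler_upper_aux (s : ℝ) (t : Finset (HeightOneSpectrum (𝓞 K))) :
    ∑' I : AS t, F s I.1 ≤ ∏ v ∈ t, (1 - F s v.asIdeal)⁻¹ := by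
  classical
  induction t using Finset.induction_on with
  | empty =>
    have h1 : ∀ I : AS (∅ : Finset (HeightOneSpectrum (𝓞 K))), I.1 = 1 := by
      intro I
      by_contra h
      obtain ⟨P, hP, hle⟩ := Ideal.exists_le_maximal I.1 (by rwa [← Ideal.one_eq_top])
      have hPb : P ≠ ⊥ := by
        rintro rfl
        exact I.2.1 (le_bot_iff.mp hle)
      exact absurd (I.2.2 ⟨P, hP.isPrime, hPb⟩ (Ideal.dvd_iff_le.mpr hle)) (Finset.notMem_empty _)
    have : Subsingleton (AS (∅ : Finset (HeightOneSpectrum (𝓞 K)))) :=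
      ⟨fun a b => Subtype.ext ((h1 a).trans (h1 b).symm)⟩
    let e : AS (∅ : Finset (HeightOneSpectrum (𝓞 K))) :=
      ⟨1, one_ne_zero, fun v hv => absurd (isUnit_of_dvd_one hv) v.prime.not_isUnit⟩
    rw [tsum_eq_single e (fun b hb => absurd (Subsingleton.elim b e) hb), Finset.prod_empty]
    exact (F_one s).le
  | insert v t hv ih =>
    rw [Finset.prod_insert hv]
    let φ : AS t × ℕ → AS (insert v t) := fun p => ⟨p.1.1 * v.asIdeal ^ p.2, by
      refine ⟨?_, ?_⟩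
      · exact mul_ne_zero (M₀ := Ideal (𝓞 K)) p.1.2.1 (pow_ne_zero _ v.ne_bot)
      · intro w hw
        rcases w.prime.dvd_or_dvd hw with h | h
        · exact Finset.mem_insert_of_mem (p.1.2.2 w h)
        · rw [dvd_asIdeal (w.prime.dvd_of_dvd_pow h)]
          exact Finset.mem_insert_self _ _⟩
    have hφ : Function.Surjective φ := by
      intro I
      obtain ⟨J, k, h⟩ := AS_insert I
      exact ⟨(J, k), Subtype.ext h.symm⟩
    refine (ENNReal.tsum_le_tsum_comp_of_surjective hφ _).trans ?_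
    have h2 : ∀ p : AS t × ℕ, F s (φ p).1 = F s p.1.1 * F s v.asIdeal ^ p.2 := by
      intro p
      show F s (p.1.1 * v.asIdeal ^ p.2) = _
      rw [F_mul, F_pow]
    rw [tsum_congr h2, ENNReal.tsum_prod']
    simp_rw [ENNReal.tsum_mul_left, ENNReal.tsum_mul_right, ENNReal.tsum_geometric]
    rw [mul_comm]
    gcongr

theorem euler_upper (s : ℝ) (B : ℝ≥0∞)
    (hB : ∀ t : Finset (HeightOneSpectrum (𝓞 K)), ∏ v ∈ t, (1 - F s v.asIdeal)⁻¹ ≤ B) :
    Z K s ≤ B := by
  classical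
  unfold Z
  rw [ENNReal.tsum_eq_iSup_sum]
  refine iSup_le fun T => ?_
  let t : Finset (HeightOneSpectrum (𝓞 K)) :=
    T.biUnion fun I => (Ideal.finite_factors I.2).toFinset
  let ψ : {I // I ∈ T} → AS t := fun I => ⟨I.1.1, I.1.2, fun v hv =>
    Finset.mem_biUnion.mpr ⟨I.1, I.2, (Set.Finite.mem_toFinset _).mpr hv⟩⟩
  have hψ : Function.Injective ψ := by
    intro a b h
    have h' : (ψ a).1 = (ψ b).1 := congrArg Subtype.val h
    exact Subtype.ext (Subtype.ext h')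
  have h1 : ∑ I ∈ T, F s I.1 = ∑ I ∈ T.attach, F s (ψ I).1 :=
    (Finset.sum_attach T fun I => F s I.1).symm
  rw [h1, ← Finset.sum_image (f := fun I : AS t => F s I.1) (s := T.attach) (g := ψ)
    (fun a _ b _ h => hψ h)]
  exact ((ENNReal.sum_le_tsum _).trans (euler_upper_aux s t)).trans (hB t)

end Pool.Agent.Lib_helper28.FROB
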