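import Pool.Agent.Lib_helper28.FROB.Local
import Pool.Agent.Lib_helper28.FROB.Zeta

/-!
# Frobenius: the primes above a prime of degree one of a fixed field
-/

open NumberField IsDedekindDomain Ideal MulAction
open scoped Pointwise

namespace Pool.Agent.Lib_helper28.FROB

variable {M : Type*} [Field M] [NumberField M] [IsGalois ℚ M]

/-- the decomposition group -/
abbrev Dec (w : HeightOneSpectrum (𝓞 M)) : Subgroup Gal(M/ℚ) := stabilizer Gal(M/ℚ) w.asIdeal

/-- The prime of the fixed field of `H` below `w`. -/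
noncomputable abbrev dn (H : Subgroup Gal(M/ℚ)) (w : HeightOneSpectrum (𝓞 M)) :
    HeightOneSpectrum (𝓞 (Fix H)) :=
  w.under (𝓞 (Fix H))

set_option linter.unusedSectionVars false

instance liesOver_dn (H : Subgroup Gal(M/ℚ)) (w : HeightOneSpectrum (𝓞 M)) :
    w.asIdeal.LiesOver (dn H w).asIdeal := ⟨rfl⟩

theorem pr_dn (H : Subgroup Gal(M/ℚ)) (w : HeightOneSpectrum (𝓞 M)) : pr (dn H w) = pr w := by
  unfold pr
  rw [HeightOneSpectrum.under_asIdeal, Ideal.under_under]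

theorem under_ne_bot (w : HeightOneSpectrum (𝓞 M)) : w.asIdeal.under ℤ ≠ ⊥ := by
  rw [under_eq]
  intro h
  rw [Ideal.span_singleton_eq_bot] at h
  exact (pr_prime w).ne_zero (by exact_mod_cast h)

theorem card_dec (w : HeightOneSpectrum (𝓞 M)) (h : w.asIdeal.ramificationIdx ℤ = 1) :
    Nat.card (Dec w) = w.asIdeal.inertiaDeg ℤ := by
  have : w.asIdeal.IsMaximal := w.isMaximal
  have : (w.asIdeal.under ℤ).IsMaximal := Ideal.IsMaximal.under ℤ w.asIdeal
  exact card_stab Gal(M/ℚ) ℤ (𝓞 M) w.asIdeal (w.asIdeal.under ℤ) (under_ne_bot w) h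

theorem ram_dn (H : Subgroup Gal(M/ℚ)) (w : HeightOneSpectrum (𝓞 M))
    (h : w.asIdeal.ramificationIdx ℤ = 1) : w.asIdeal.ramificationIdx (𝓞 (Fix H)) = 1 := by
  rw [Ideal.ramificationIdx_tower (R := ℤ) (dn H w).asIdeal w.asIdeal] at h
  exact Nat.eq_one_of_mul_eq_one_left h

theorem card_dec_inf (H : Subgroup Gal(M/ℚ)) (w : HeightOneSpectrum (𝓞 M))
    (h : w.asIdeal.ramificationIdx ℤ = 1) :
    Nat.card ((Dec w ⊓ H : Subgroup Gal(M/ℚ))) = w.asIdeal.inertiaDeg (𝓞 (Fix H)) := by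
  rw [← card_stab_sub]
  have : (dn H w).asIdeal.IsMaximal := (dn H w).isMaximal
  exact card_stab H (𝓞 (Fix H)) (𝓞 M) w.asIdeal (dn H w).asIdeal (dn H w).ne_bot (ram_dn H w h)

theorem dg_dn (H : Subgroup Gal(M/ℚ)) (w : HeightOneSpectrum (𝓞 M)) :
    w.asIdeal.inertiaDeg ℤ = dg (dn H w) * w.asIdeal.inertiaDeg (𝓞 (Fix H)) :=
  Ideal.inertiaDeg_tower (R := ℤ) (dn H w).asIdeal w.asIdeal

/-- The prime of the fixed field of `H` below `w` has degree one iff the decomposition group of `w`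
is contained in `H`. -/
theorem deg_one_iff (H : Subgroup Gal(M/ℚ)) (w : HeightOneSpectrum (𝓞 M))
    (h : w.asIdeal.ramificationIdx ℤ = 1) : dg (dn H w) = 1 ↔ Dec w ≤ H := by
  have h1 := card_dec w h
  have h2 := card_dec_inf H w h
  have h3 := dg_dn H w
  constructor
  · intro hd
    rw [hd, one_mul] at h3
    have h4 : Dec w ⊓ H = Dec w := by
      refine Subgroup.eq_of_le_of_card_ge inf_le_left ?_
      rw [h1, h2, h3]
    exact inf_eq_left.mp h4
  · intro hle
    rw [inf_eq_left.mpr hle, h1, h3] at h2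
    have h5 : 0 < w.asIdeal.inertiaDeg (𝓞 (Fix H)) := Ideal.inertiaDeg_pos _ _
    exact Nat.eq_of_mul_eq_mul_right h5 (by rw [h2, one_mul])

/-- the primes above `v` -/
noncomputable def fiberEquiv (H : Subgroup Gal(M/ℚ)) (v : HeightOneSpectrum (𝓞 (Fix H))) :
    {w : HeightOneSpectrum (𝓞 M) // dn H w = v} ≃ v.asIdeal.primesOver (𝓞 M) where
  toFun w := ⟨w.1.asIdeal, w.1.isPrime, ⟨(congrArg HeightOneSpectrum.asIdeal w.2).symm⟩⟩
  invFun P := ⟨⟨P.1, P.2.1, by
    intro h0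
    have := P.2.2.over
    rw [h0, Ideal.under_bot] at this
    exact v.ne_bot this⟩, by
      apply HeightOneSpectrum.ext
      exact P.2.2.over.symm⟩
  left_inv w := rfl
  right_inv P := rfl

theorem fiber_sum (H : Subgroup Gal(M/ℚ)) (v : HeightOneSpectrum (𝓞 (Fix H))) (hv : dg v = 1)
    (hu : ∀ w : HeightOneSpectrum (𝓞 M), dn H w = v → w.asIdeal.ramificationIdx ℤ = 1) :
    ∑' w : {w : HeightOneSpectrum (𝓞 M) // dn H w = v}, (Nat.card (Dec w.1) : ℝ) =
      Nat.card H := by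
  have hm : v.asIdeal.IsMaximal := v.isMaximal
  have hperf := perfect_under v.asIdeal v.ne_bot
  have h1 : ∀ w : {w : HeightOneSpectrum (𝓞 M) // dn H w = v}, (Nat.card (Dec w.1) : ℝ) =
      ((v.asIdeal.ramificationIdxIn (𝓞 M) * v.asIdeal.inertiaDegIn (𝓞 M) : ℕ) : ℝ) := by
    rintro ⟨w, rfl⟩
    have hle := (deg_one_iff H w (hu w rfl)).mp hv
    have h2 : Nat.card (Dec w) = Nat.card (stabilizer H w.asIdeal) := by
      rw [card_stab_sub, inf_eq_left.mpr hle]
    rw [h2]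
    exact congrArg Nat.cast (Ideal.card_stabilizer_eq (G := H) (dn H w).asIdeal w.asIdeal)
  rw [tsum_congr h1, tsum_const, nsmul_eq_mul, Nat.card_congr (fiberEquiv H v),
    Nat.card_coe_set_eq, ← Nat.cast_mul,
    ncard_primesOver_mul_ramificationIdxIn_mul_inertiaDegIn v.asIdeal (𝓞 M) H]

end Pool.Agent.Lib_helper28.FROB
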