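import Mathlib

/-!
# Frobenius: decomposition groups and primes of degree one of fixed fields

`M` is a finite Galois extension of the rational numbers with group `G`, and `H` is a subgroup of
`G` with fixed field `F`.  For a prime `w` of `M`, unramified over the rational numbers, the prime
of `F` below `w` has degree one iff the decomposition group of `w` is contained in `H`.
-/

open NumberField IsDedekindDomain Ideal MulAction
open scoped Pointwise

namespace Pool.Agent.Lib_helper28.FROB

variable {M : Type*} [Field M] [NumberField M] [IsGalois ℚ M]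

/-- The fixed field of a subgroup. -/
abbrev Fix (H : Subgroup Gal(M/ℚ)) : IntermediateField ℚ M := FixedPoints.intermediateField H

instance galH (H : Subgroup Gal(M/ℚ)) : IsGaloisGroup H (Fix H) M :=
  IsGaloisGroup.subgroup Gal(M/ℚ) ℚ M H

instance galHO (H : Subgroup Gal(M/ℚ)) : IsGaloisGroup H (𝓞 (Fix H)) (𝓞 M) :=
  IsGaloisGroup.of_isFractionRing H _ _ (Fix H) M

/-- The stabilizer of a prime in the subgroup `H` and in `G`. -/
theorem card_stab_sub (H : Subgroup Gal(M/ℚ)) (P : Ideal (𝓞 M)) :
    Nat.card (stabilizer H P) = Nat.card ((stabilizer Gal(M/ℚ) P ⊓ H : Subgroup Gal(M/ℚ))) := by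
  have h : stabilizer H P = (stabilizer Gal(M/ℚ) P).subgroupOf H := by
    ext g
    simp only [mem_stabilizer_iff, Subgroup.mem_subgroupOf]
    rfl
  rw [h, ← Subgroup.inf_subgroupOf_right]
  exact Nat.card_congr (Subgroup.subgroupOfEquivOfLe inf_le_right).toEquiv


theorem perfect_under {R : Type*} [CommRing R] [IsDomain R] [Ring.HasFiniteQuotients R]
    (p : Ideal R) [p.IsMaximal] (hp : p ≠ ⊥) : PerfectField p.ResidueField := by
  have : Finite (R ⧸ p) := Ring.HasFiniteQuotients.finiteQuotient hp
  infer_instance

theorem card_stab (G : Type*) [Group G] [Finite G] (R S : Type*) [CommRing R] [CommRing S]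
    [Algebra R S] [MulSemiringAction G S] [IsGaloisGroup G R S] [IsDomain R] [IsDomain S]
    [Module.Finite R S] [Module.Flat R S] [Ring.HasFiniteQuotients R] (P : Ideal S)
    [P.IsPrime] (p : Ideal R) [p.IsMaximal] [P.LiesOver p] (hp : p ≠ ⊥)
    (h : P.ramificationIdx R = 1) :
    Nat.card (stabilizer G P) = P.inertiaDeg R := by
  have := perfect_under p hp
  rw [Ideal.card_stabilizer_eq p P, ramificationIdxIn_eq_ramificationIdx p P G, h, one_mul,
    inertiaDegIn_eq_inertiaDeg p P G]

end Pool.Agent.Lib_helper28.FROB
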