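import Pool.Agent.Lib_helper28.FROB.Euler

/-!
# The logarithm of the Dedekind zeta function and the sum over the prime ideals
-/

open NumberField IsDedekindDomain Ideal Filter Topology
open scoped ENNReal

namespace Pool.Agent.Lib_helper28.FROB

theorem inv_one_sub_le {x : ℝ} (h0 : 0 ≤ x) (h1 : x ≤ 1 / 2) :
    (1 - x)⁻¹ ≤ Real.exp (x + x ^ 2) := by
  have hpos : 0 < 1 - x := by linarith
  rw [inv_le_iff_one_le_mul₀ hpos]
  have h2 := Real.quadratic_le_exp_of_nonneg (x := x + x ^ 2) (by positivity)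
  have h3 : 1 ≤ (1 + (x + x ^ 2) + (x + x ^ 2) ^ 2 / 2) * (1 - x) := by
    have h4 : (1 + (x + x ^ 2) + (x + x ^ 2) ^ 2 / 2) * (1 - x) =
        1 + x ^ 2 / 2 * (1 - x - x ^ 2 - x ^ 3) := by ring
    rw [h4]
    have h5 : x ^ 2 ≤ 1 / 4 := by nlinarith
    have h6 : x ^ 3 ≤ 1 / 8 := by nlinarith
    nlinarith [sq_nonneg x]
  calc (1 : ℝ) ≤ (1 + (x + x ^ 2) + (x + x ^ 2) ^ 2 / 2) * (1 - x) := h3
    _ ≤ Real.exp (x + x ^ 2) * (1 - x) := by gcongr

theorem exp_sub_le {x : ℝ} (h0 : 0 ≤ x) (h1 : x ≤ 1) : Real.exp (x - x ^ 2) ≤ 1 + x := by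
  have h2 : 0 < 1 - (x - x ^ 2) := by nlinarith
  have h3 : 1 - (x - x ^ 2) ≤ Real.exp (-(x - x ^ 2)) := Real.one_sub_le_exp_neg _
  have h4 : Real.exp (x - x ^ 2) * Real.exp (-(x - x ^ 2)) = 1 := by
    rw [← Real.exp_add]; simp
  have h5 : 1 ≤ (1 + x) * (1 - (x - x ^ 2)) := by
    have : (1 + x) * (1 - (x - x ^ 2)) = 1 + x ^ 3 := by ring
    rw [this]
    have : 0 ≤ x ^ 3 := by positivity
    linarith
  have h6 : Real.exp (x - x ^ 2) * (1 - (x - x ^ 2)) ≤ (1 + x) * (1 - (x - x ^ 2)) := by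
    refine le_trans ?_ h5
    exact (mul_le_mul_of_nonneg_left h3 (Real.exp_pos _).le).trans h4.le
  exact le_of_mul_le_mul_right h6 h2

variable {K : Type*} [Field K] [NumberField K]

theorem norm_ge (v : HeightOneSpectrum (𝓞 K)) : 2 ≤ absNorm v.asIdeal := by
  rw [norm_eq]
  exact (pr_prime v).two_le.trans (Nat.le_self_pow (dg_pos v).ne' _)

theorem norm_ge' (v : HeightOneSpectrum (𝓞 K)) : (2 : ℝ) ≤ absNorm v.asIdeal := by
  exact_mod_cast norm_ge v

theorem x_pos (s : ℝ) (v : HeightOneSpectrum (𝓞 K)) : 0 < x s v :=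
  Real.rpow_pos_of_pos (by linarith [norm_ge' v]) _

theorem x_anti {s t : ℝ} (h : s ≤ t) (v : HeightOneSpectrum (𝓞 K)) : x t v ≤ x s v :=
  Real.rpow_le_rpow_of_exponent_le (by linarith [norm_ge' v]) (by linarith)

theorem x_le {s : ℝ} (h : 1 ≤ s) (v : HeightOneSpectrum (𝓞 K)) : x s v ≤ 1 / 2 := by
  refine (x_anti h v).trans ?_
  unfold x
  rw [Real.rpow_neg_one, one_div]
  exact inv_anti₀ (by norm_num) (norm_ge' v)

theorem F_eq (s : ℝ) (v : HeightOneSpectrum (𝓞 K)) : F s v.asIdeal = ENNReal.ofReal (x s v) := rfl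

/-- `p ^ (-s)` for the rational prime below -/
theorem x_le_pr {s : ℝ} (h : 0 ≤ s) (v : HeightOneSpectrum (𝓞 K)) :
    x s v ≤ ((pr v : ℝ)) ^ (-s) := by
  unfold x
  rw [norm_eq]
  have h1 : (1 : ℝ) ≤ pr v := by exact_mod_cast (pr_prime v).one_le
  refine Real.rpow_le_rpow_of_nonpos (by linarith) ?_ (by linarith)
  exact_mod_cast Nat.le_self_pow (dg_pos v).ne' _

theorem summable_pr {s : ℝ} (h : 1 < s) :
    Summable fun v : HeightOneSpectrum (𝓞 K) => ((pr v : ℝ)) ^ (-s) := by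
  have h1 : Summable fun p : Nat.Primes => ((p : ℝ)) ^ (-s) :=
    Nat.Primes.summable_rpow.mpr (by linarith)
  have h2 : ∑' v : HeightOneSpectrum (𝓞 K), ENNReal.ofReal (((pr v : ℝ)) ^ (-s)) ≠ ∞ := by
    refine ne_top_of_le_ne_top ?_ (tsum_pr_le fun n => ENNReal.ofReal ((n : ℝ) ^ (-s)))
    refine ENNReal.mul_ne_top (ENNReal.natCast_ne_top _) ?_
    exact h1.tsum_ofReal_ne_top
  refine (ENNReal.summable_toReal h2).congr fun v => ?_
  rw [ENNReal.toReal_ofReal (by positivity)]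

theorem summable_x {s : ℝ} (h : 1 < s) : Summable (x (K := K) s) :=
  Summable.of_nonneg_of_le (fun v => (x_pos s v).le) (x_le_pr (by linarith)) (summable_pr h)

theorem x_sq (s : ℝ) (v : HeightOneSpectrum (𝓞 K)) : x s v ^ 2 = x (2 * s) v := by
  unfold x
  rw [← Real.rpow_natCast, ← Real.rpow_mul (Nat.cast_nonneg _)]
  congr 1
  push_cast
  ring

theorem x_sq_le {s : ℝ} (h : 1 ≤ s) (v : HeightOneSpectrum (𝓞 K)) : x s v ^ 2 ≤ x 2 v := by
  rw [x_sq]
  exact x_anti (by linarith) v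

theorem sum_sq_le {s : ℝ} (h : 1 ≤ s) (t : Finset (HeightOneSpectrum (𝓞 K))) :
    ∑ v ∈ t, x s v ^ 2 ≤ ∑' v : HeightOneSpectrum (𝓞 K), x 2 v :=
  (Finset.sum_le_sum fun v _ => x_sq_le h v).trans
    ((summable_x (by norm_num)).sum_le_tsum _ fun v _ => (x_pos 2 v).le)

theorem Z_le {s : ℝ} (h : 1 < s) : Z K s ≤ ENNReal.ofReal (Real.exp
    (∑' v : HeightOneSpectrum (𝓞 K), x s v + ∑' v : HeightOneSpectrum (𝓞 K), x 2 v)) := by
  refine euler_upper s _ fun t => ?_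
  have h1 : ∀ v ∈ t, (1 - F s v.asIdeal)⁻¹ ≤ ENNReal.ofReal (Real.exp (x s v + x s v ^ 2)) := by
    intro v _
    have h2 := x_le h.le v
    have h3 := x_pos s v
    rw [F_eq, ← ENNReal.ofReal_one, ← ENNReal.ofReal_sub _ h3.le,
      ← ENNReal.ofReal_inv_of_pos (by linarith)]
    exact ENNReal.ofReal_le_ofReal (inv_one_sub_le h3.le h2)
  refine (Finset.prod_le_prod' h1).trans ?_
  rw [← ENNReal.ofReal_prod_of_nonneg (fun v _ => (Real.exp_pos _).le), ← Real.exp_sum]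
  refine ENNReal.ofReal_le_ofReal (Real.exp_le_exp.mpr ?_)
  rw [Finset.sum_add_distrib]
  exact add_le_add ((summable_x h).sum_le_tsum _ fun v _ => (x_pos s v).le) (sum_sq_le h.le t)

theorem le_Z {s : ℝ} (h : 1 < s) : ENNReal.ofReal (Real.exp
    (∑' v : HeightOneSpectrum (𝓞 K), x s v - ∑' v : HeightOneSpectrum (𝓞 K), x 2 v)) ≤ Z K s := by
  have hc : Tendsto (fun t : Finset (HeightOneSpectrum (𝓞 K)) => ENNReal.ofReal (Real.exp
      (∑ v ∈ t, x s v - ∑' v : HeightOneSpectrum (𝓞 K), x 2 v))) atTop (𝓝 (ENNReal.ofReal (Real.exp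
      (∑' v : HeightOneSpectrum (𝓞 K), x s v - ∑' v : HeightOneSpectrum (𝓞 K), x 2 v)))) := by
    refine ENNReal.tendsto_ofReal ?_
    exact (Real.continuous_exp.tendsto _).comp ((summable_x h).hasSum.sub_const _)
  refine le_of_tendsto' hc fun t => ?_
  refine le_trans ?_ (euler_lower s t)
  have h1 : ∀ v ∈ t, ENNReal.ofReal (Real.exp (x s v - x s v ^ 2)) ≤ 1 + F s v.asIdeal := by
    intro v _
    have h2 := x_le h.le v
    have h3 := x_pos s v
    rw [F_eq, ← ENNReal.ofReal_one, ← ENNReal.ofReal_add (by norm_num) h3.le]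
    exact ENNReal.ofReal_le_ofReal (exp_sub_le h3.le (by linarith))
  refine le_trans ?_ (Finset.prod_le_prod' h1)
  rw [← ENNReal.ofReal_prod_of_nonneg (fun v _ => (Real.exp_pos _).le), ← Real.exp_sum]
  refine ENNReal.ofReal_le_ofReal (Real.exp_le_exp.mpr ?_)
  rw [Finset.sum_sub_distrib]
  exact sub_le_sub_left (sum_sq_le h.le t) _

end Pool.Agent.Lib_helper28.FROB
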