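import Pool.Agent.Lib_helper28.FROB.Fiber

/-!
# Frobenius: sums over the primes with decomposition group in a given subgroup
-/

open NumberField IsDedekindDomain Ideal MulAction Filter Topology Asymptotics
open scoped Pointwise

namespace Pool.Agent.Lib_helper28.FROB

variable {M : Type*} [Field M] [NumberField M] [IsGalois ℚ M]

set_option linter.unusedSectionVars false

/-- `p` is unramified in `M` -/
def U (M : Type*) [Field M] [NumberField M] (p : ℕ) : Prop :=
  ∀ w : HeightOneSpectrum (𝓞 M), pr w = p → w.asIdeal.ramificationIdx ℤ = 1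

theorem bad_finite : {p : ℕ | ¬ U M p}.Finite := by
  have hd : NumberField.discr M ≠ 0 := NumberField.discr_ne_zero M
  refine (Nat.divisors (NumberField.discr M).natAbs).finite_toSet.subset ?_
  intro p hp
  simp only [Set.mem_ofPred_eq, U, not_forall] at hp
  obtain ⟨w, hw, hr⟩ := hp
  rw [Finset.mem_coe, Nat.mem_divisors]
  refine ⟨?_, by simpa using hd⟩
  by_contra hnd
  have hpp : p.Prime := hw ▸ pr_prime w
  have hnd' : ¬ (p : ℤ) ∣ NumberField.discr M := by
    rwa [Int.natCast_dvd]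
  have h := (NumberField.not_dvd_discr_iff_forall_mem M (𝓞 M) (Nat.prime_iff_prime_int.mp hpp)).mp
    hnd' w.asIdeal w.isPrime ?_
  · exact hr Ideal.ramificationIdx_eq_one_of_isUnramifiedAt
  · have h1 : (p : ℤ) ∈ w.asIdeal.under ℤ := by
      rw [under_eq, hw]
      exact Ideal.mem_span_singleton_self _
    rw [Ideal.mem_comap] at h1
    simpa using h1

open Classical in
/-- the term of `w` for the primes with decomposition group contained in `H` -/
noncomputable def ta (H : Subgroup Gal(M/ℚ)) (s : ℝ) (w : HeightOneSpectrum (𝓞 M)) : ℝ :=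
  if U M (pr w) ∧ Dec w ≤ H then (Nat.card (Dec w) : ℝ) * (pr w : ℝ) ^ (-s) else 0

open Classical in
/-- the term of `v` for the primes of degree one -/
noncomputable def tb (H : Subgroup Gal(M/ℚ)) (s : ℝ) (v : HeightOneSpectrum (𝓞 (Fix H))) : ℝ :=
  if U M (pr v) ∧ dg v = 1 then (pr v : ℝ) ^ (-s) else 0

open Classical in
/-- the term of `w` for the primes with decomposition group `H` -/
noncomputable def tt (H : Subgroup Gal(M/ℚ)) (s : ℝ) (w : HeightOneSpectrum (𝓞 M)) : ℝ :=
  if U M (pr w) ∧ Dec w = H then (Nat.card H : ℝ) * (pr w : ℝ) ^ (-s) else 0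

theorem ta_nonneg (H : Subgroup Gal(M/ℚ)) (s : ℝ) (w : HeightOneSpectrum (𝓞 M)) :
    0 ≤ ta H s w := by
  unfold ta; split_ifs <;> positivity

theorem tt_nonneg (H : Subgroup Gal(M/ℚ)) (s : ℝ) (w : HeightOneSpectrum (𝓞 M)) :
    0 ≤ tt H s w := by
  unfold tt; split_ifs <;> positivity

theorem tb_nonneg (H : Subgroup Gal(M/ℚ)) (s : ℝ) (v : HeightOneSpectrum (𝓞 (Fix H))) :
    0 ≤ tb H s v := by
  unfold tb; split_ifs <;> positivity

theorem summable_ta (H : Subgroup Gal(M/ℚ)) {s : ℝ} (hs : 1 < s) : Summable (ta H s) := by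
  refine Summable.of_nonneg_of_le (ta_nonneg H s) (fun w => ?_)
    ((summable_pr hs).mul_left (Nat.card Gal(M/ℚ) : ℝ))
  unfold ta
  split_ifs
  · gcongr
    exact Subgroup.card_le_card_group _
  · positivity

theorem summable_tt (H : Subgroup Gal(M/ℚ)) {s : ℝ} (hs : 1 < s) : Summable (tt H s) := by
  refine Summable.of_nonneg_of_le (tt_nonneg H s) (fun w => ?_)
    ((summable_pr hs).mul_left (Nat.card Gal(M/ℚ) : ℝ))
  unfold tt
  split_ifs
  · gcongr
    exact Subgroup.card_le_card_group _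
  · positivity

theorem summable_tb (H : Subgroup Gal(M/ℚ)) {s : ℝ} (hs : 1 < s) : Summable (tb H s) := by
  refine Summable.of_nonneg_of_le (tb_nonneg H s) (fun w => ?_) (summable_pr hs)
  unfold tb
  split_ifs
  · exact le_rfl
  · positivity

theorem sum_ta (H : Subgroup Gal(M/ℚ)) {s : ℝ} (hs : 1 < s) :
    ∑' w, ta H s w = Nat.card H * ∑' v, tb H s v := by
  rw [← (HasSum.tsum_fiberwise (summable_ta H hs).hasSum (dn H)).tsum_eq, ← tsum_mul_left]
  refine tsum_congr fun v => ?_
  by_cases hv : U M (pr v) ∧ dg v = 1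
  · have h1 : ∀ w : (dn H ⁻¹' {v} : Set (HeightOneSpectrum (𝓞 M))),
        ta H s w.1 = (Nat.card (Dec w.1) : ℝ) * (pr v : ℝ) ^ (-s) := by
      rintro ⟨w, hw⟩
      have hw' : dn H w = v := hw
      subst hw'
      rw [pr_dn] at hv
      have hr := hv.1 w rfl
      unfold ta
      rw [if_pos ⟨hv.1, (deg_one_iff H w hr).mp hv.2⟩, pr_dn]
    rw [tsum_congr h1, tsum_mul_right]
    have h2 := fiber_sum H v hv.2 (fun w hw => hv.1 w (by rw [← hw, pr_dn]))
    have h3 : ∑' w : (dn H ⁻¹' {v} : Set (HeightOneSpectrum (𝓞 M))), (Nat.card (Dec w.1) : ℝ) =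
        Nat.card H := h2
    rw [h3, tb, if_pos hv]
  · have h1 : ∀ w : (dn H ⁻¹' {v} : Set (HeightOneSpectrum (𝓞 M))), ta H s w.1 = 0 := by
      rintro ⟨w, hw⟩
      have hw' : dn H w = v := hw
      subst hw'
      unfold ta
      rw [if_neg]
      rintro ⟨h2, h3⟩
      exact hv ⟨by rw [pr_dn]; exact h2, (deg_one_iff H w (h2 w rfl)).mpr h3⟩
    rw [tsum_congr h1, tsum_zero, tb, if_neg hv, mul_zero]

theorem badv_finite (H : Subgroup Gal(M/ℚ)) :
    {v : HeightOneSpectrum (𝓞 (Fix H)) | ¬ U M (pr v)}.Finite := by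
  have h1 : ∀ p : ℕ, {v : HeightOneSpectrum (𝓞 (Fix H)) | pr v = p}.Finite := fun p =>
    Set.finite_coe_iff.mp (fiber_finite p)
  refine ((bad_finite (M := M)).biUnion fun p _ => h1 p).subset ?_
  intro v hv
  simp only [Set.mem_iUnion]
  exact ⟨pr v, hv, rfl⟩

theorem sum_tb (H : Subgroup Gal(M/ℚ)) : ∃ C : ℝ, ∀ s : ℝ, 1 < s →
    |∑' v : HeightOneSpectrum (𝓞 (Fix H)), x s v - ∑' v, tb H s v| ≤ C := by
  classical
  have hfin := badv_finite H
  let ind : HeightOneSpectrum (𝓞 (Fix H)) → ℝ := fun v => if ¬ U M (pr v) then 1 else 0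
  have hind : Summable ind := by
    refine summable_of_hasFiniteSupport (hfin.subset ?_)
    intro v hv
    by_contra h
    exact hv (if_neg h)
  have h2 : Summable fun v : HeightOneSpectrum (𝓞 (Fix H)) => ((pr v : ℝ)) ^ (-2 : ℝ) :=
    summable_pr (by norm_num)
  refine ⟨∑' v : HeightOneSpectrum (𝓞 (Fix H)), (((pr v : ℝ)) ^ (-2 : ℝ) + ind v), ?_⟩
  intro s hs
  have hx := summable_x (K := Fix H) hs
  have hb := summable_tb H hs
  rw [← hx.tsum_sub hb]
  have key : ∀ v : HeightOneSpectrum (𝓞 (Fix H)), 0 ≤ x s v - tb H s v ∧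
      x s v - tb H s v ≤ ((pr v : ℝ)) ^ (-2 : ℝ) + ind v := by
    intro v
    have hp1 : (1 : ℝ) ≤ pr v := by exact_mod_cast (pr_prime v).one_le
    have hnn : 0 ≤ ((pr v : ℝ)) ^ (-2 : ℝ) := by positivity
    have hxp := x_pos s v
    have hi : 0 ≤ ind v := by
      show 0 ≤ (if ¬ U M (pr v) then (1 : ℝ) else 0)
      split_ifs <;> norm_num
    by_cases hv : U M (pr v) ∧ dg v = 1
    · have : x s v = tb H s v := by
        rw [tb, if_pos hv]
        unfold x
        rw [norm_eq, hv.2, pow_one]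
      rw [this, sub_self]
      exact ⟨le_rfl, by positivity⟩
    · have htb : tb H s v = 0 := by rw [tb, if_neg hv]
      rw [htb, sub_zero]
      refine ⟨hxp.le, ?_⟩
      by_cases hu : U M (pr v)
      · have hd : dg v ≠ 1 := fun h => hv ⟨hu, h⟩
        have hd2 : 2 ≤ dg v := by have := dg_pos v; omega
        have : x s v ≤ ((pr v : ℝ)) ^ (-2 : ℝ) := by
          unfold x
          rw [norm_eq, Nat.cast_pow, ← Real.rpow_natCast, ← Real.rpow_mul (by positivity)]
          refine Real.rpow_le_rpow_of_exponent_le hp1 ?_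
          have : (2 : ℝ) ≤ dg v := by exact_mod_cast hd2
          nlinarith
        linarith
      · have : ind v = 1 := if_pos hu
        rw [this]
        have := x_le hs.le v
        linarith
  have hsum : Summable fun v => x s v - tb H s v := hx.sub hb
  rw [abs_of_nonneg (tsum_nonneg fun v => (key v).1)]
  exact hsum.tsum_le_tsum (fun v => (key v).2) (h2.add hind)

end Pool.Agent.Lib_helper28.FROB
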